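import Mathlib
import Pool.Agent.W526.PrestableStar
import Pool.Agent.W526.PartSeries

/-!
# A Hilbert series of a Chow ring of genus zero prestable strata which is not rational

Let `n ≥ 3`, and let `U ⊆ 𝔐_{0,n}` be the locus of the prestable curves of genus `0` all of whose
markings lie on one component which meets all other components (the dual graph is a star, with all
legs at the centre).  It is an open union of strata (not of finite type).  The dimension of `CH^d(U)`
is the number of partitions of `d`, so the Hilbert series is `∏_{j ≥ 1} 1 / (1 - t ^ j)`, which is
not the expansion of a rational function.

The Chow groups are those given by the generators (decorated trees in normal form) and the relations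
(isomorphisms, WDVV) of Bae and Schmitt, see `Pool/Agent/W526/Prestable.lean`.  No two adjacent
vertices of a star with all legs at the centre have valence three or more, so the WDVV relations do
not contribute; the stratum with `k` tails contributes the symmetric polynomials in the classes `ψ`
of the `k` tails.
-/

set_option autoImplicit false

namespace Pool.Agent.Results.MP_52bf41_ag.PartitionSeries

open Pool.Agent.W526.Prestable

/-- For `n ≥ 3` the star locus `U` is an open union of strata of `𝔐_{0,n}`, the Chow group
`CH^d(U)` has as dimension the number of partitions of `d`, and the Hilbert series of the Chow ring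
of `U` is not the expansion of a rational function. -/
theorem result (n : ℕ) (hn : 3 ≤ n) :
    IsOpenUnionOfStrata (starLocus n) ∧
      (∀ d, Module.Finite ℚ (Chow (starLocus n) d) ∧
        Module.finrank ℚ (Chow (starLocus n) d) = Fintype.card (Nat.Partition d)) ∧
      ¬ IsRational (hilbertSeries (starLocus n)) := by
  refine ⟨isOpen_star n, fun d => ⟨finite_chow hn d, finrank_chow hn d⟩, ?_⟩
  rintro ⟨p, q, hq, h⟩
  refine Pool.Agent.W526.PartSeries.not_rational p q hq ?_
  rw [← h, hilbertSeries]
  congr 2
  ext d
  rw [finrank_chow hn d]

end Pool.Agent.Results.MP_52bf41_ag.PartitionSeries
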